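import Pool.Agent.Helper12.ScDefs

/-!
Finding a handle with both entries in the common kernel of finitely many characters, by
elementary moves on a long list of pairs.
-/

set_option autoImplicit false

namespace Helper69.Sc

open Helper12.Sc

section Ext

variable {Γ : Type*} [Group Γ]

/-- The list `Q` is the end of a list that can be reached from `B`. -/
def Ext (B Q : List (Γ × Γ)) : Prop := ∃ junk, Reach B (junk ++ Q)

theorem Ext.refl (B : List (Γ × Γ)) : Ext B B := ⟨[], Reach.refl _⟩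

theorem Ext.trans {A B C : List (Γ × Γ)} (h : Ext A B) (h' : Ext B C) : Ext A C := by
  obtain ⟨j, h⟩ := h
  obtain ⟨j', h'⟩ := h'
  refine ⟨j ++ j', h.trans ?_⟩
  have := h'.context j []
  simpa using this

theorem Ext.of_reach {A B : List (Γ × Γ)} (h : Reach A B) : Ext A B := ⟨[], h⟩

theorem Ext.of_step {A B : List (Γ × Γ)} (h : Step A B) : Ext A B := Ext.of_reach (.of_step h)

theorem Ext.suffix (A B : List (Γ × Γ)) : Ext (A ++ B) B := ⟨A, Reach.refl _⟩

/-- Moving a list to the right past one pair. -/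
theorem reach_past_one (A : List (Γ × Γ)) (q : Γ × Γ) : ∃ q', Reach (A ++ [q]) (q' :: A) := by
  induction A generalizing q with
  | nil => exact ⟨q, Reach.refl _⟩
  | cons p A ih =>
    obtain ⟨q', h⟩ := ih q
    have h1 : Reach (p :: A ++ [q]) (p :: q' :: A) := by
      have := h.context [p] []
      simpa using this
    obtain ⟨a, b⟩ := p
    obtain ⟨c, d⟩ := q'
    exact ⟨_, h1.trans (.of_step (by simpa using Step.br [] A a b c d))⟩

/-- Moving a list to the right past another list. -/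
theorem reach_past (A B : List (Γ × Γ)) : ∃ B', Reach (A ++ B) (B' ++ A) := by
  induction B with
  | nil => exact ⟨[], by simpa using Reach.refl A⟩
  | cons q B ih =>
    obtain ⟨q', h⟩ := reach_past_one A q
    obtain ⟨B', h'⟩ := ih
    refine ⟨q' :: B', ?_⟩
    have h1 : Reach (A ++ q :: B) (q' :: (A ++ B)) := by
      have := h.context [] B
      simpa using this
    have h2 : Reach (q' :: (A ++ B)) (q' :: (B' ++ A)) := by
      have := h'.context [q'] []
      simpa using this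
    exact h1.trans h2

theorem Ext.pre (A B : List (Γ × Γ)) : Ext (A ++ B) A := reach_past A B

theorem Ext.append {B₁ B₂ Q₁ Q₂ : List (Γ × Γ)} (h₁ : Ext B₁ Q₁) (h₂ : Ext B₂ Q₂) :
    Ext (B₁ ++ B₂) (Q₁ ++ Q₂) := by
  obtain ⟨j₁, h₁⟩ := h₁
  obtain ⟨j₂, h₂⟩ := h₂
  obtain ⟨j₂', h₃⟩ := reach_past Q₁ j₂
  refine ⟨j₁ ++ j₂', ?_⟩
  have e1 : Reach (B₁ ++ B₂) (j₁ ++ Q₁ ++ B₂) := by
    have := h₁.context [] B₂
    simpa using this
  have e2 : Reach (j₁ ++ Q₁ ++ B₂) (j₁ ++ Q₁ ++ (j₂ ++ Q₂)) := by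
    have := h₂.context (j₁ ++ Q₁) []
    simpa using this
  have e3 : Reach (j₁ ++ Q₁ ++ (j₂ ++ Q₂)) (j₁ ++ j₂' ++ (Q₁ ++ Q₂)) := by
    have := h₃.context j₁ Q₂
    simpa using this
  exact e1.trans (e2.trans e3)

theorem Ext.nil (B : List (Γ × Γ)) : Ext B [] := ⟨B, by simpa using Reach.refl B⟩

/-- The block lemma. -/
theorem blocks {R R' : Γ × Γ → Prop} {n : ℕ}
    (h : ∀ L : List (Γ × Γ), n ≤ L.length → (∀ p ∈ L, R p) → ∃ p, Ext L [p] ∧ R' p) :
    ∀ (m : ℕ) (L : List (Γ × Γ)), n * m ≤ L.length → (∀ p ∈ L, R p) →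
      ∃ L', L'.length = m ∧ Ext L L' ∧ ∀ p ∈ L', R' p := by
  intro m
  induction m with
  | zero => exact fun L _ _ => ⟨[], rfl, Ext.nil L, by simp⟩
  | succ m ih =>
    intro L hL hR
    have h0 : n ≤ L.length := by nlinarith
    obtain ⟨p, hp, hRp⟩ := h (L.take n) (by simp [h0]) fun p hp => hR p (List.mem_of_mem_take hp)
    obtain ⟨L', h1, h2, h3⟩ := ih (L.drop n) (by
      rw [List.length_drop]
      have : n * (m + 1) = n * m + n := by ring
      omega) fun p hp => hR p (List.mem_of_mem_drop hp)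
    refine ⟨p :: L', by simp [h1], ?_, ?_⟩
    · have := hp.append h2
      rw [List.take_append_drop] at this
      simpa using this
    · intro q hq
      rcases List.mem_cons.1 hq with h | h
      · rw [h]; exact hRp
      · exact h3 q h

/-- The merge of two handles. -/
theorem Ext.merge (a b c d : Γ) : Ext [(a, b), (c, d)] [(a * c, d)] := by
  have h1 : Reach [(a, b), (c, d)] [(a * b * a⁻¹, a⁻¹), (c, d)] :=
    .of_step (by simpa using Step.rot' [] [(c, d)] a b)
  have h2 : Reach [(a * b * a⁻¹, a⁻¹), (c, d)]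
      [(a * b * a⁻¹ * a⁻¹ * (a * b * a⁻¹)⁻¹, (a * b * a⁻¹)⁻¹), (c, d)] :=
    .of_step (by simpa using Step.rot' [] [(c, d)] (a * b * a⁻¹) a⁻¹)
  set A := a * b * a⁻¹ * a⁻¹ * (a * b * a⁻¹)⁻¹ with hA
  set B := (a * b * a⁻¹)⁻¹ with hB
  have h3 : Reach [(A, B), (c, d)]
      [(A, B * A⁻¹ * B⁻¹ * c * d * c⁻¹ * B), (B * A⁻¹ * B⁻¹ * c, d)] :=
    .of_step (by simpa using Step.sl [] [] A B c d)
  have e : B * A⁻¹ * B⁻¹ * c = a * c := by
    rw [hA, hB]; group
  rw [e] at h3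
  exact (Ext.of_reach (h1.trans (h2.trans h3))).trans (Ext.suffix [_] [_])

/-- The slide, keeping the first handle. -/
theorem Ext.slide (a b c d : Γ) :
    Ext [(a, b), (c, d)] [(a, b * a⁻¹ * b⁻¹ * c * d * c⁻¹ * b)] := by
  have h3 : Reach [(a, b), (c, d)]
      [(a, b * a⁻¹ * b⁻¹ * c * d * c⁻¹ * b), (b * a⁻¹ * b⁻¹ * c, d)] :=
    .of_step (by simpa using Step.sl [] [] a b c d)
  exact (Ext.of_reach h3).trans (Ext.pre [_] [_])

/-- Merging a nonempty list. -/
theorem ext_prod (M : List (Γ × Γ)) (hM : M ≠ []) :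
    ∃ y, Ext M [((M.map Prod.fst).prod, y)] := by
  induction M with
  | nil => exact absurd rfl hM
  | cons p M ih =>
    by_cases hM' : M = []
    · subst hM'
      exact ⟨p.2, by simpa using Ext.refl [p]⟩
    · obtain ⟨y, h⟩ := ih hM'
      refine ⟨y, ?_⟩
      have h1 : Ext (p :: M) [p, ((M.map Prod.fst).prod, y)] := by
        simpa using (Ext.refl [p]).append h
      obtain ⟨a, b⟩ := p
      simpa using h1.trans (Ext.merge a b _ y)

/-- Slides in a nonempty list whose first entries are in a normal subgroup. -/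
theorem ext_slide (K : Subgroup Γ) [K.Normal] (M : List (Γ × Γ)) (hM : M ≠ [])
    (hK : ∀ p ∈ M, p.1 ∈ K) :
    ∃ q : Γ × Γ, Ext M [q] ∧ q.1 ∈ K ∧
      ((q.2 : Γ) : Γ ⧸ K)⁻¹ = (M.map fun p => ((p.2 : Γ) : Γ ⧸ K)⁻¹).prod := by
  induction M with
  | nil => exact absurd rfl hM
  | cons p M ih =>
    by_cases hM' : M = []
    · subst hM'
      exact ⟨p, Ext.refl [p], hK p (by simp), by simp⟩
    · obtain ⟨q, h, hq1, hq2⟩ := ih hM' fun r hr => hK r (List.mem_cons_of_mem _ hr)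
      have h1 : Ext (p :: M) [p, q] := by
        simpa using (Ext.refl [p]).append h
      have hp := hK p (by simp)
      obtain ⟨a, b⟩ := p
      obtain ⟨c, d⟩ := q
      refine ⟨_, h1.trans (Ext.slide a b c d), hp, ?_⟩
      rw [List.map_cons, List.prod_cons, ← hq2]
      have ha : ((a : Γ) : Γ ⧸ K) = 1 := (QuotientGroup.eq_one_iff a).2 hp
      have hc : ((c : Γ) : Γ ⧸ K) = 1 := (QuotientGroup.eq_one_iff c).2 hq1
      simp only [QuotientGroup.mk_mul, QuotientGroup.mk_inv, ha, hc]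
      group

end Ext

/-- Zero-sum contiguous blocks. -/
theorem exists_block {G α : Type*} [Group G] [Finite G] (g : α → G) (L : List α)
    (hL : Nat.card G ≤ L.length) :
    ∃ l₁ M l₃, L = l₁ ++ M ++ l₃ ∧ M ≠ [] ∧ (M.map g).prod = 1 := by
  classical
  have := Fintype.ofFinite G
  have h1 : ¬ Function.Injective (fun i : Fin (L.length + 1) => ((L.take i).map g).prod) := by
    intro hinj
    have h2 := Fintype.card_le_of_injective _ hinj
    rw [Fintype.card_fin, ← Nat.card_eq_fintype_card] at h2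
    omega
  rw [Function.Injective] at h1
  push Not at h1
  obtain ⟨i, j, hij, hne⟩ := h1
  wlog hlt : i < j generalizing i j
  · exact this j i hij.symm (Ne.symm hne) (lt_of_le_of_ne (not_lt.1 hlt) (Ne.symm hne))
  have hlt' : (i : ℕ) < j := hlt
  have hj : (j : ℕ) ≤ L.length := Nat.lt_succ_iff.1 j.2
  refine ⟨L.take i, (L.take j).drop i, L.drop j, ?_, ?_, ?_⟩
  · have e1 : (L.take j).take i = L.take i := by
      rw [List.take_take, min_eq_left hlt'.le]
    rw [← e1, List.take_append_drop, List.take_append_drop]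
  · intro h
    have h2 := congrArg List.length h
    rw [List.length_drop, List.length_take, List.length_nil] at h2
    omega
  · have e1 : (L.take j).take i = L.take i := by
      rw [List.take_take, min_eq_left hlt'.le]
    have e2 : ((L.take j).map g).prod =
        ((L.take i).map g).prod * (((L.take j).drop i).map g).prod := by
      rw [← List.prod_append, ← List.map_append, ← e1, List.take_append_drop]
    rw [← hij] at e2
    exact (mul_eq_left.1 e2.symm)

section Euclid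

variable {Γ : Type*} [Group Γ]

/-- The Euclidean algorithm on the values of a character. -/
theorem euclid {R : Γ × Γ → Prop} {ι : Type*} (f : ι → Γ × Γ → ℂˣ) (S : Set ι) (s : ι)
    (hswap : ∀ p q, R p → R q → ∃ p' q', Ext [p, q] [q', p'] ∧ R p' ∧ R q' ∧
      ∀ i, f i p' = f i p ∧ f i q' = f i q)
    (hsub : ∀ p q, R p → R q → ∃ p' q', Ext [p, q] [p', q'] ∧ R p' ∧ R q' ∧
      ∀ i, f i p' = f i p ∧ f i q' = (f i p)⁻¹ * f i q) (ζ : ℂˣ) :
    ∀ (N a b : ℕ) (p q : Γ × Γ), a + b ≤ N → R p → R q → (∀ i ∈ S, f i p = 1) →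
      (∀ i ∈ S, f i q = 1) → f s p = ζ ^ a → f s q = ζ ^ b →
      ∃ r, Ext [p, q] [r] ∧ R r ∧ (∀ i ∈ S, f i r = 1) ∧ f s r = 1 := by
  intro N
  induction N with
  | zero =>
    intro a b p q hab hp hq hSp hSq ha hb
    have ha0 : a = 0 := by omega
    refine ⟨p, Ext.pre [p] [q], hp, hSp, ?_⟩
    rw [ha, ha0, pow_zero]
  | succ N ih =>
    intro a b p q hab hp hq hSp hSq ha hb
    rcases Nat.eq_zero_or_pos a with ha0 | ha0
    · refine ⟨p, Ext.pre [p] [q], hp, hSp, ?_⟩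
      rw [ha, ha0, pow_zero]
    rcases Nat.eq_zero_or_pos b with hb0 | hb0
    · refine ⟨q, Ext.suffix [p] [q], hq, hSq, ?_⟩
      rw [hb, hb0, pow_zero]
    rcases Nat.lt_or_ge b a with hlt | hge
    · obtain ⟨p₁, q₁, h1, hp1, hq1, h2⟩ := hswap p q hp hq
      obtain ⟨q₂, p₂, h3, hq2, hp2, h4⟩ := hsub q₁ p₁ hq1 hp1
      obtain ⟨r, hr, hRr, hSr, hsr⟩ := ih b (a - b) q₂ p₂ (by omega) hq2 hp2
        (fun i hi => by rw [(h4 i).1, (h2 i).2, hSq i hi])
        (fun i hi => by rw [(h4 i).2, (h2 i).1, (h2 i).2, hSp i hi, hSq i hi]; simp)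
        (by rw [(h4 s).1, (h2 s).2, hb])
        (by
          rw [(h4 s).2, (h2 s).1, (h2 s).2, ha, hb, inv_mul_eq_iff_eq_mul, ← pow_add]
          congr 1; omega)
      exact ⟨r, (h1.trans h3).trans hr, hRr, hSr, hsr⟩
    · obtain ⟨p₂, q₂, h3, hp2, hq2, h4⟩ := hsub p q hp hq
      obtain ⟨r, hr, hRr, hSr, hsr⟩ := ih a (b - a) p₂ q₂ (by omega) hp2 hq2
        (fun i hi => by rw [(h4 i).1, hSp i hi])
        (fun i hi => by rw [(h4 i).2, hSp i hi, hSq i hi]; simp)
        (by rw [(h4 s).1, ha])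
        (by
          rw [(h4 s).2, ha, hb, inv_mul_eq_iff_eq_mul, ← pow_add]
          congr 1; omega)
      exact ⟨r, h3.trans hr, hRr, hSr, hsr⟩

/-- Two units of finite order are powers of a third one. -/
theorem exists_common_root (u v : ℂˣ) (hu : IsOfFinOrder u) (hv : IsOfFinOrder v) :
    ∃ (ζ : ℂˣ) (a b : ℕ), u = ζ ^ a ∧ v = ζ ^ b := by
  obtain ⟨m, hm, hum⟩ := isOfFinOrder_iff_pow_eq_one.1 hu
  obtain ⟨n, hn, hvn⟩ := isOfFinOrder_iff_pow_eq_one.1 hv
  have hN : m * n ≠ 0 := (Nat.mul_pos hm hn).ne'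
  have : NeZero (m * n) := ⟨hN⟩
  have hprim := (Complex.isPrimitiveRoot_exp (m * n) hN)
  obtain ⟨ζ, hζ⟩ := hprim.isUnit hN
  have hζ' : IsPrimitiveRoot ζ (m * n) := by
    rw [← IsPrimitiveRoot.coe_units_iff, hζ]; exact hprim
  obtain ⟨a, -, ha⟩ := hζ'.eq_pow_of_mem_rootsOfUnity
    (ξ := u) ((mem_rootsOfUnity _ _).2 (by rw [pow_mul, hum, one_pow]))
  obtain ⟨b, -, hb⟩ := hζ'.eq_pow_of_mem_rootsOfUnity
    (ξ := v) ((mem_rootsOfUnity _ _).2 (by rw [mul_comm, pow_mul, hvn, one_pow]))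
  exact ⟨ζ, a, b, ha.symm, hb.symm⟩

/-- From `2 ^ D` handles one gets one with trivial values of `D` characters. -/
theorem kill {R : Γ × Γ → Prop} {D : ℕ} (f : Fin D → Γ × Γ → ℂˣ)
    (hswap : ∀ p q, R p → R q → ∃ p' q', Ext [p, q] [q', p'] ∧ R p' ∧ R q' ∧
      ∀ i, f i p' = f i p ∧ f i q' = f i q)
    (hsub : ∀ p q, R p → R q → ∃ p' q', Ext [p, q] [p', q'] ∧ R p' ∧ R q' ∧
      ∀ i, f i p' = f i p ∧ f i q' = (f i p)⁻¹ * f i q)
    (hfin : ∀ i p, IsOfFinOrder (f i p)) :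
    ∀ s : ℕ, s ≤ D → ∀ L : List (Γ × Γ), 2 ^ s ≤ L.length → (∀ p ∈ L, R p) →
      ∃ p, Ext L [p] ∧ R p ∧ ∀ i : Fin D, (i : ℕ) < s → f i p = 1 := by
  intro s
  induction s with
  | zero =>
    intro _ L hL hR
    obtain ⟨p, L', rfl⟩ : ∃ p L', L = p :: L' := by
      cases L with
      | nil => simp at hL
      | cons p L' => exact ⟨p, L', rfl⟩
    exact ⟨p, by simpa using Ext.pre [p] L', hR p (by simp), fun i hi => absurd hi (by omega)⟩
  | succ s ih =>
    intro hs L hL hR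
    obtain ⟨L', hl, hE, hL'⟩ := blocks (R := R)
      (R' := fun p => R p ∧ ∀ i : Fin D, (i : ℕ) < s → f i p = 1) (n := 2 ^ s)
      (fun L hL hR => ih (by omega) L hL hR) 2 L (by rw [← pow_succ]; exact hL) hR
    obtain ⟨p, q, rfl⟩ := List.length_eq_two.1 hl
    obtain ⟨hp, hSp⟩ := hL' p (by simp)
    obtain ⟨hq, hSq⟩ := hL' q (by simp)
    obtain ⟨ζ, a, b, ha, hb⟩ := exists_common_root (f ⟨s, by omega⟩ p) (f ⟨s, by omega⟩ q)
      (hfin _ _) (hfin _ _)
    obtain ⟨r, hr, hRr, hSr, hsr⟩ := euclid f {i | (i : ℕ) < s} ⟨s, by omega⟩ hswap hsub ζ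
      (a + b) a b p q le_rfl hp hq hSp hSq ha hb
    refine ⟨r, hE.trans hr, hRr, fun i hi => ?_⟩
    rcases Nat.lt_succ_iff_lt_or_eq.1 hi with h | h
    · exact hSr i h
    · have : i = ⟨s, by omega⟩ := Fin.ext h
      rw [this]; exact hsr

/-- From `4 ^ D` handles one gets one with trivial values of `D` characters at both entries. -/
theorem kill_both {D : ℕ} (χ : Fin D → (Γ →* ℂˣ)) (hχ : ∀ i k, IsOfFinOrder (χ i k))
    (L : List (Γ × Γ)) (hL : 4 ^ D ≤ L.length) :
    ∃ p, Ext L [p] ∧ ∀ i, χ i p.1 = 1 ∧ χ i p.2 = 1 := by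
  -- first entries
  have h1 : ∀ L : List (Γ × Γ), 2 ^ D ≤ L.length → (∀ p ∈ L, True) →
      ∃ p, Ext L [p] ∧ ∀ i, χ i p.1 = 1 := by
    intro L hL hR
    obtain ⟨p, hp, -, h⟩ := kill (R := fun _ => True) (fun i p => χ i p.1)
      (by
        rintro ⟨a, b⟩ ⟨c, d⟩ - -
        refine ⟨(a, b), _, Ext.of_step (by simpa using Step.br [] [] a b c d), trivial, trivial,
          fun i => ⟨rfl, ?_⟩⟩
        simp [mul_comm])
      (by
        rintro ⟨a, b⟩ ⟨c, d⟩ - -
        refine ⟨(a, b * a⁻¹ * b⁻¹ * c * d * c⁻¹ * b), (b * a⁻¹ * b⁻¹ * c, d),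
          Ext.of_step (by simpa using Step.sl [] [] a b c d), trivial, trivial,
          fun i => ⟨rfl, ?_⟩⟩
        simp [mul_comm])
      (fun i p => hχ i _) D le_rfl L hL hR
    exact ⟨p, hp, fun i => h i i.2⟩
  obtain ⟨L₁, hl₁, hE₁, hR₁⟩ := blocks (R := fun _ => True)
    (R' := fun p => ∀ i, χ i p.1 = 1) (n := 2 ^ D) h1 (2 ^ D) L (by
      rw [← mul_pow]; exact hL) (fun _ _ => trivial)
  obtain ⟨p, hp, hRp, h⟩ := kill (R := fun p => ∀ i, χ i p.1 = 1) (fun i p => χ i p.2)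
      (by
        rintro ⟨a, b⟩ ⟨c, d⟩ hp hq
        refine ⟨(a, b), _, Ext.of_step (by simpa using Step.br [] [] a b c d), hp,
          fun i => ?_, fun i => ⟨rfl, ?_⟩⟩
        · have := hq i
          simp only at this
          simp [this, mul_comm]
        · simp [mul_comm])
      (by
        rintro ⟨a, b⟩ ⟨c, d⟩ hp hq
        -- swap
        have s1 : Step [(a, b), (c, d)] [(a * b * a⁻¹ * b⁻¹ * c * (a * b * a⁻¹ * b⁻¹)⁻¹,
          a * b * a⁻¹ * b⁻¹ * d * (a * b * a⁻¹ * b⁻¹)⁻¹), (a, b)] := by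
          simpa using Step.br [] [] a b c d
        set c' := a * b * a⁻¹ * b⁻¹ * c * (a * b * a⁻¹ * b⁻¹)⁻¹ with hc'
        set d' := a * b * a⁻¹ * b⁻¹ * d * (a * b * a⁻¹ * b⁻¹)⁻¹ with hd'
        have hc1 : ∀ i, χ i c' = 1 := by
          intro i
          have := hq i
          simp only at this
          rw [hc']; simp [this, mul_comm]
        have hd1 : ∀ i, χ i d' = χ i d := by
          intro i
          rw [hd']; simp [mul_comm]
        have s2 : Step [(c', d'), (a, b)] [(c', a * b⁻¹ * a⁻¹ * d' * c'),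
          (a * b⁻¹ * a⁻¹ * d' * c' * d'⁻¹ * a * b, b)] := by
          simpa using Step.sl' [] [] c' d' a b
        have ha1 : ∀ i, χ i a = 1 := fun i => hp i
        set d'' := a * b⁻¹ * a⁻¹ * d' * c' with hd''
        set a'' := a * b⁻¹ * a⁻¹ * d' * c' * d'⁻¹ * a * b with ha''
        have hd2 : ∀ i, χ i d'' = (χ i b)⁻¹ * χ i d := by
          intro i
          rw [hd'']
          simp only [map_mul, map_inv, ha1 i, hc1 i, hd1 i]
          simp
        have ha2 : ∀ i, χ i a'' = 1 := by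
          intro i
          rw [ha'']
          simp only [map_mul, map_inv, ha1 i, hc1 i, hd1 i]
          simp [mul_comm]
        have s3 : Step [(c', d''), (a'', b)]
          [(c' * d'' * c'⁻¹ * d''⁻¹ * a'' * (c' * d'' * c'⁻¹ * d''⁻¹)⁻¹,
          c' * d'' * c'⁻¹ * d''⁻¹ * b * (c' * d'' * c'⁻¹ * d''⁻¹)⁻¹), (c', d'')] := by
          simpa using Step.br [] [] c' d'' a'' b
        refine ⟨_, _, Ext.of_reach ((Reach.of_step s1).trans
          ((Reach.of_step s2).trans (Reach.of_step s3))), fun i => ?_, hc1, fun i => ⟨?_, hd2 i⟩⟩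
        · simp only [map_mul, map_inv, ha2 i]
          simp [mul_comm]
        · simp only [map_mul, map_inv]
          simp [mul_comm])
      (fun i p => hχ i _) D le_rfl L₁ hl₁.ge hR₁
  exact ⟨p, hE₁.trans hp, fun i => ⟨hRp i, h i i.2⟩⟩

end Euclid

section Map

variable {Γ Γ' : Type*} [Group Γ] [Group Γ']

theorem step_map (f : Γ →* Γ') {L L' : List (Γ × Γ)} (h : Step L L') :
    Step (L.map (Prod.map f f)) (L'.map (Prod.map f f)) := by
  cases h with
  | tw u v x y =>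
    simpa using Step.tw (u.map (Prod.map f f)) (v.map (Prod.map f f)) (f x) (f y)
  | tw' u v x y =>
    simpa using Step.tw' (u.map (Prod.map f f)) (v.map (Prod.map f f)) (f x) (f y)
  | rot u v x y =>
    simpa using Step.rot (u.map (Prod.map f f)) (v.map (Prod.map f f)) (f x) (f y)
  | rot' u v x y =>
    simpa using Step.rot' (u.map (Prod.map f f)) (v.map (Prod.map f f)) (f x) (f y)
  | sl u v a b c d =>
    simpa using Step.sl (u.map (Prod.map f f)) (v.map (Prod.map f f)) (f a) (f b) (f c) (f d)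
  | sl' u v a b c d =>
    simpa using Step.sl' (u.map (Prod.map f f)) (v.map (Prod.map f f)) (f a) (f b) (f c) (f d)
  | br u v a b c d =>
    simpa using Step.br (u.map (Prod.map f f)) (v.map (Prod.map f f)) (f a) (f b) (f c) (f d)
  | br' u v a b c d =>
    simpa using Step.br' (u.map (Prod.map f f)) (v.map (Prod.map f f)) (f a) (f b) (f c) (f d)

theorem reach_map (f : Γ →* Γ') {L L' : List (Γ × Γ)} (h : Reach L L') :
    Reach (L.map (Prod.map f f)) (L'.map (Prod.map f f)) := by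
  induction h with
  | refl => exact Reach.refl _
  | tail _ hs ih => exact Relation.ReflTransGen.tail ih (step_map f hs)

theorem Ext.map (f : Γ →* Γ') {L L' : List (Γ × Γ)} (h : Ext L L') :
    Ext (L.map (Prod.map f f)) (L'.map (Prod.map f f)) := by
  obtain ⟨j, h⟩ := h
  refine ⟨j.map (Prod.map f f), ?_⟩
  rw [← List.map_append]
  exact reach_map f h

end Map

theorem exists_lift {H : Type*} [Group H] (K : Subgroup H) (L : List (H × H))
    (hL : ∀ p ∈ L, p.1 ∈ K ∧ p.2 ∈ K) :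
    ∃ L' : List (K × K), L'.map (Prod.map K.subtype K.subtype) = L := by
  induction L with
  | nil => exact ⟨[], rfl⟩
  | cons p L ih =>
    obtain ⟨L', h⟩ := ih fun q hq => hL q (List.mem_cons_of_mem _ hq)
    obtain ⟨h1, h2⟩ := hL p (by simp)
    exact ⟨(⟨p.1, h1⟩, ⟨p.2, h2⟩) :: L', by rw [List.map_cons, h]; rfl⟩

/-- **The handle lemma.** Let `K` be a normal subgroup of index at most `J`, and let `χ` be `D`
characters of `K` with values of finite order. From a list of `(J + 1) ^ 2 * 4 ^ D` pairs one can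
reach a list whose last pair is in the common kernel of the characters. -/
theorem find_handle {H : Type*} [Group H] (K : Subgroup H) [K.Normal] (J : ℕ)
    (hJ : K.index ≠ 0) (hJ' : K.index ≤ J) (D : ℕ) (χ : Fin D → (K →* ℂˣ))
    (hχ : ∀ i k, IsOfFinOrder (χ i k)) (B : List (H × H))
    (hB : (J + 1) ^ 2 * 4 ^ D ≤ B.length) :
    ∃ (junk : List (H × H)) (p : H × H), Reach B (junk ++ [p]) ∧
      ∃ (h1 : p.1 ∈ K) (h2 : p.2 ∈ K), ∀ i, χ i ⟨p.1, h1⟩ = 1 ∧ χ i ⟨p.2, h2⟩ = 1 := by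
  classical
  have hfin : Finite (H ⧸ K) := Nat.finite_of_card_ne_zero hJ
  have hcard : Nat.card (H ⧸ K) ≤ J := hJ'
  -- first entries in K
  have h1 : ∀ L : List (H × H), J + 1 ≤ L.length → (∀ p ∈ L, True) →
      ∃ p, Ext L [p] ∧ p.1 ∈ K := by
    intro L hL _
    obtain ⟨l₁, M, l₃, rfl, hM, hprod⟩ := exists_block
      (fun p : H × H => ((p.1 : H) : H ⧸ K)) L (by omega)
    obtain ⟨y, hy⟩ := ext_prod M hM
    refine ⟨_, ((Ext.pre (l₁ ++ M) l₃).trans (Ext.suffix l₁ M)).trans hy, ?_⟩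
    rw [← QuotientGroup.eq_one_iff, ← hprod]
    change (QuotientGroup.mk' K) _ = _
    rw [map_list_prod, List.map_map]
    rfl
  have h2 : ∀ L : List (H × H), J + 1 ≤ L.length → (∀ p ∈ L, p.1 ∈ K) →
      ∃ p, Ext L [p] ∧ (p.1 ∈ K ∧ p.2 ∈ K) := by
    intro L hL hK
    obtain ⟨l₁, M, l₃, rfl, hM, hprod⟩ := exists_block
      (fun p : H × H => ((p.2 : H) : H ⧸ K)⁻¹) L (by omega)
    obtain ⟨q, hq, hq1, hq2⟩ := ext_slide K M hM fun p hp => hK p (by simp [hp])
    refine ⟨q, ((Ext.pre (l₁ ++ M) l₃).trans (Ext.suffix l₁ M)).trans hq, hq1, ?_⟩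
    rw [hprod, inv_eq_one] at hq2
    exact (QuotientGroup.eq_one_iff _).1 hq2
  obtain ⟨L₁, hl₁, hE₁, hR₁⟩ := blocks (R := fun _ => True) (R' := fun p : H × H => p.1 ∈ K)
    h1 ((J + 1) * 4 ^ D) B (by
      calc (J + 1) * ((J + 1) * 4 ^ D) = (J + 1) ^ 2 * 4 ^ D := by ring
        _ ≤ _ := hB) (fun _ _ => trivial)
  obtain ⟨L₂, hl₂, hE₂, hR₂⟩ := blocks (R := fun p : H × H => p.1 ∈ K)
    (R' := fun p : H × H => p.1 ∈ K ∧ p.2 ∈ K) h2 (4 ^ D) L₁ hl₁.ge hR₁
  obtain ⟨L₃, rfl⟩ := exists_lift K L₂ hR₂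
  obtain ⟨p, hp, hχp⟩ := kill_both χ hχ L₃ (by rw [← hl₂, List.length_map])
  obtain ⟨junk, h⟩ := (hE₁.trans hE₂).trans (hp.map K.subtype)
  exact ⟨junk, Prod.map K.subtype K.subtype p, by simpa using h, p.1.2, p.2.2, hχp⟩

end Helper69.Sc
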